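import Mathlib

/-!
# Logical homogeneity; the semigroup of the counterexample
-/

set_option autoImplicit false

namespace Pool.Agent.Q318.SgAlg

open FirstOrder FirstOrder.Language

/-- `M` is logically homogeneous: finite tuples with the same first-order type are conjugate under an automorphism. -/
def LogHom (L : FirstOrder.Language.{0, 0}) (M : Type) [L.Structure M] : Prop :=
  ∀ (n : ℕ) (a b : Fin n → M), (∀ φ : L.Formula (Fin n), φ.Realize a ↔ φ.Realize b) →
    ∃ σ : M ≃[L] M, ∀ i, σ (a i) = b i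

/-- one binary function symbol -/
inductive SgF : ℕ → Type
  | mul : SgF 2

/-- the language of semigroups -/
def sg : FirstOrder.Language.{0, 0} := ⟨SgF, fun _ => Empty⟩

instance sgStr (S : Type) [Mul S] : sg.Structure S where
  funMap {_} f v := match f, v with
    | SgF.mul, v => v 0 * v 1
  RelMap {_} r _ := nomatch r

/-- the symbols of rings -/
inductive RgF : ℕ → Type
  | zero : RgF 0
  | one : RgF 0
  | neg : RgF 1
  | add : RgF 2
  | mul : RgF 2

/-- the language of rings -/
def rg : FirstOrder.Language.{0, 0} := ⟨RgF, fun _ => Empty⟩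

instance rgStr (R : Type) [Ring R] : rg.Structure R where
  funMap {_} f v := match f, v with
    | RgF.zero, _ => 0
    | RgF.one, _ => 1
    | RgF.neg, v => - v 0
    | RgF.add, v => v 0 + v 1
    | RgF.mul, v => v 0 * v 1
  RelMap {_} r _ := nomatch r

/-- the symbols of `P`-algebras; the symbol `1` is present for `u = true` only -/
inductive AlF (P : Type) (u : Bool) : ℕ → Type
  | zero : AlF P u 0
  | one (h : u = true) : AlF P u 0
  | neg : AlF P u 1
  | smul (c : P) : AlF P u 1
  | add : AlF P u 2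
  | mul : AlF P u 2

/-- the language of associative algebras over `P` (with `1` if `u = true`, without `1` if `u = false`) -/
def al (P : Type) (u : Bool) : FirstOrder.Language.{0, 0} := ⟨AlF P u, fun _ => Empty⟩

instance alStr (P : Type) (u : Bool) (A : Type) [Ring A] [SMul P A] : (al P u).Structure A where
  funMap {_} f v := match f, v with
    | AlF.zero, _ => 0
    | AlF.one _, _ => 1
    | AlF.neg, v => - v 0
    | AlF.smul c, v => c • v 0
    | AlF.add, v => v 0 + v 1
    | AlF.mul, v => v 0 * v 1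
  RelMap {_} r _ := nomatch r

/-! ### Definable relations -/

section Def

variable (L : FirstOrder.Language.{0, 0}) (M : Type) [L.Structure M]

/-- definable relations -/
def Df (α : Type) (p : (α → M) → Prop) : Prop := ∃ ψ : L.Formula α, ∀ v, ψ.Realize v ↔ p v

variable {L M}

theorem Df.not {α : Type} {p : (α → M) → Prop} (h : Df L M α p) : Df L M α fun v => ¬ p v := by
  obtain ⟨ψ, hψ⟩ := h
  exact ⟨ψ.not, fun v => by rw [Formula.realize_not, hψ]⟩

theorem Df.or {α : Type} {p q : (α → M) → Prop} (h : Df L M α p) (h' : Df L M α q) :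
    Df L M α fun v => p v ∨ q v := by
  obtain ⟨ψ, hψ⟩ := h
  obtain ⟨χ, hχ⟩ := h'
  exact ⟨ψ ⊔ χ, fun v => by rw [Formula.realize_sup, hψ, hχ]⟩

theorem Df.and {α : Type} {p q : (α → M) → Prop} (h : Df L M α p) (h' : Df L M α q) :
    Df L M α fun v => p v ∧ q v := by
  obtain ⟨ψ, hψ⟩ := h
  obtain ⟨χ, hχ⟩ := h'
  exact ⟨ψ ⊓ χ, fun v => by rw [Formula.realize_inf, hψ, hχ]⟩

theorem Df.all {α : Type} {p : (α ⊕ Unit → M) → Prop} (h : Df L M (α ⊕ Unit) p) :
    Df L M α fun v => ∀ s : M, p (Sum.elim v fun _ => s) := by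
  obtain ⟨ψ, hψ⟩ := h
  refine ⟨ψ.iAlls Unit, fun v => ?_⟩
  rw [Formula.realize_iAlls]
  simp only [hψ]
  exact ⟨fun h s => h fun _ => s, fun h s => h (s ())⟩

theorem Df.ex {α : Type} {p : (α ⊕ Unit → M) → Prop} (h : Df L M (α ⊕ Unit) p) :
    Df L M α fun v => ∃ s : M, p (Sum.elim v fun _ => s) := by
  have := h.not.all.not
  refine this.imp fun ψ hψ v => ?_
  rw [hψ]
  push Not
  rfl

theorem Df.sub {α β : Type} {p : (α → M) → Prop} (h : Df L M α p) (f : α → β) :
    Df L M β fun v => p (v ∘ f) := by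
  obtain ⟨ψ, hψ⟩ := h
  refine ⟨ψ.relabel f, fun v => ?_⟩
  rw [Formula.realize_relabel, hψ]

theorem Df.eq {α : Type} (t t' : L.Term α) : Df L M α fun v => t.realize v = t'.realize v :=
  ⟨t.equal t', fun v => by rw [Formula.realize_equal]⟩

end Def

/-- product of terms -/
def tm {α : Type} (t t' : sg.Term α) : sg.Term α := Term.func (SgF.mul : sg.Functions 2) ![t, t']

theorem realize_tm {α S : Type} [Mul S] (t t' : sg.Term α) (v : α → S) :
    (tm t t').realize v = t.realize v * t'.realize v := rfl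

/-! ### The semigroup -/

/-- a monoid with zero, a block `chain × left zero semigroup`, a block `V-semilattice × left zero semigroup` -/
inductive Sm (κ μ : Type) : Type
  | one : Sm κ μ
  | zero : Sm κ μ
  | l (e : Fin 3) (x : κ) : Sm κ μ
  | r (v : Fin 3) (y : μ) : Sm κ μ

open Sm

/-- the meet of the V-semilattice -/
def vm (v w : Fin 3) : Fin 3 := if v = w then v else 0

theorem vm_assoc (a b c : Fin 3) : vm (vm a b) c = vm a (vm b c) := by
  revert a b c; decide

instance {κ μ : Type} : Mul (Sm κ μ) where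
  mul
    | one, b => b
    | a, one => a
    | l e x, l f _ => l (min e f) x
    | r v y, r w _ => r (vm v w) y
    | _, _ => zero

section
variable {κ μ : Type}

@[simp] theorem one_mul' (b : Sm κ μ) : (one : Sm κ μ) * b = b := by cases b <;> rfl
@[simp] theorem mul_one' (b : Sm κ μ) : b * (one : Sm κ μ) = b := by cases b <;> rfl
@[simp] theorem zero_mul' (b : Sm κ μ) : (zero : Sm κ μ) * b = zero := by cases b <;> rfl
@[simp] theorem mul_zero' (b : Sm κ μ) : b * (zero : Sm κ μ) = zero := by cases b <;> rfl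
@[simp] theorem ll (e f : Fin 3) (x y : κ) : (l e x : Sm κ μ) * l f y = l (min e f) x := rfl
@[simp] theorem rr (v w : Fin 3) (x y : μ) : (r v x : Sm κ μ) * r w y = r (vm v w) x := rfl
@[simp] theorem lr (e w : Fin 3) (x : κ) (y : μ) : (l e x : Sm κ μ) * r w y = zero := rfl
@[simp] theorem rl (e w : Fin 3) (x : κ) (y : μ) : (r w y : Sm κ μ) * l e x = zero := rfl

instance : Monoid (Sm κ μ) where
  one := one
  one_mul b := one_mul' b
  mul_one b := mul_one' b
  mul_assoc a b c := by
    cases a <;> cases b <;> cases c <;> simp [min_assoc, vm_assoc]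

theorem one_def : (1 : Sm κ μ) = one := rfl

/-- functoriality -/
def mapS {κ' μ' : Type} (f : κ → κ') (τ : Fin 3 → Fin 3) (g : μ → μ') : Sm κ μ → Sm κ' μ'
  | one => one
  | zero => zero
  | l e x => l e (f x)
  | r v y => r (τ v) (g y)

theorem mapS_mul {κ' μ' : Type} (f : κ → κ') (τ : Fin 3 → Fin 3) (g : μ → μ')
    (hτ : ∀ v w, τ (vm v w) = vm (τ v) (τ w)) (a b : Sm κ μ) :
    mapS f τ g (a * b) = mapS f τ g a * mapS f τ g b := by
  cases a <;> cases b <;> simp [mapS, hτ]

/-- the monoid homomorphism -/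
def homS {κ' μ' : Type} (f : κ → κ') (g : μ → μ') : Sm κ μ →* Sm κ' μ' where
  toFun := mapS f id g
  map_one' := rfl
  map_mul' := mapS_mul f id g fun _ _ => rfl

theorem mapS_comp {κ' μ' κ'' μ'' : Type} (f : κ → κ') (τ : Fin 3 → Fin 3) (g : μ → μ') (f' : κ' → κ'')
    (τ' : Fin 3 → Fin 3) (g' : μ' → μ'') (a : Sm κ μ) :
    mapS f' τ' g' (mapS f τ g a) = mapS (f' ∘ f) (τ' ∘ τ) (g' ∘ g) a := by
  cases a <;> rfl

theorem mapS_id (a : Sm κ μ) : mapS id id id a = a := by cases a <;> rfl

theorem homS_injective {κ' μ' : Type} {f : κ → κ'} {g : μ → μ'} (hf : Function.Injective f)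
    (hg : Function.Injective g) : Function.Injective (homS f g : Sm κ μ → Sm κ' μ') := by
  intro a b h
  change mapS f id g a = mapS f id g b at h
  cases a <;> cases b <;> simp only [mapS, Sm.l.injEq, Sm.r.injEq, reduceCtorEq] at h ⊢
  · exact ⟨h.1, hf h.2⟩
  · exact ⟨h.1, hg h.2⟩

/-- automorphisms of the semigroup -/
def autS (f : Equiv.Perm κ) (τ : Equiv.Perm (Fin 3)) (g : Equiv.Perm μ)
    (hτ : ∀ v w, τ (vm v w) = vm (τ v) (τ w)) : Sm κ μ ≃* Sm κ μ where
  toFun := mapS f τ g
  invFun := mapS f.symm τ.symm g.symm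
  left_inv a := by
    rw [mapS_comp]
    simpa using mapS_id a
  right_inv a := by
    rw [mapS_comp]
    simpa using mapS_id a
  map_mul' := mapS_mul f τ g hτ

end

/-- multiplicative bijections are automorphisms in the language of semigroups -/
def sgAut {S : Type} [Mul S] (e : S ≃* S) : S ≃[sg] S where
  toEquiv := e.toEquiv
  map_fun' {n} f v := by
    cases f
    exact e.map_mul _ _
  map_rel' {n} r v := by cases r

end Pool.Agent.Q318.SgAlg
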