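import Mathlib
import Pool.Agent.Q318.SgAlg.Defs

/-!
# The semigroup is logically homogeneous
-/

set_option autoImplicit false

namespace Pool.Agent.Q318.SgAlg

open FirstOrder FirstOrder.Language Sm

theorem ext_perm {κ ι : Type} [DecidableEq κ] [DecidableEq ι] (s : Finset ι) (x y : ι → κ)
    (h : ∀ i ∈ s, ∀ j ∈ s, x i = x j ↔ y i = y j) : ∃ π : Equiv.Perm κ, ∀ i ∈ s, π (x i) = y i := by
  induction s using Finset.induction_on with
  | empty => exact ⟨Equiv.refl _, by simp⟩
  | insert a s ha ih =>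
    obtain ⟨π, hπ⟩ := ih fun i hi j hj => h i (Finset.mem_insert_of_mem hi) j (Finset.mem_insert_of_mem hj)
    refine ⟨π.trans (Equiv.swap (π (x a)) (y a)), fun i hi => ?_⟩
    rw [Equiv.trans_apply]
    rcases Finset.mem_insert.1 hi with rfl | hi'
    · exact Equiv.swap_apply_left _ _
    · have h1 := h i hi a (Finset.mem_insert_self _ _)
      rw [hπ i hi']
      by_cases hxa : x i = x a
      · rw [← hxa, hπ i hi', ← h1.1 hxa, Equiv.swap_self]
        rfl
      · refine Equiv.swap_apply_of_ne_of_ne ?_ fun h2 => hxa (h1.2 h2)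
        rw [← hπ i hi']
        exact fun h2 => hxa (π.injective h2)

section
variable {κ μ : Type}

def PZ (s : Sm κ μ) : Prop := ∀ w : Sm κ μ, s * w = s
def PO (s : Sm κ μ) : Prop := ∀ w : Sm κ μ, s * w = w
def PT (s : Sm κ μ) : Prop := ∀ z : Sm κ μ, z * s = z ∨ PZ (z * s) ∨ PO z
def PB (s : Sm κ μ) : Prop := ∃ t : Sm κ μ, PT t ∧ ¬ PO t ∧ ¬ PZ s ∧ s * t = s
def PV (s : Sm κ μ) : Prop := ∀ z : Sm κ μ, s * z = s ∨ PZ (s * z)

theorem df_Z {α : Type} (t : sg.Term α) : Df sg (Sm κ μ) α fun v => PZ (t.realize v) := by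
  have h := (Df.eq (M := Sm κ μ) (tm (t.relabel Sum.inl) (Term.var (Sum.inr ()) : sg.Term (α ⊕ Unit)))
    (t.relabel Sum.inl)).all
  refine h.imp fun ψ hψ v => ?_
  rw [hψ]
  simp only [realize_tm, Term.realize_relabel, Term.realize_var, Sum.elim_inr, PZ]
  rfl

theorem df_O {α : Type} (t : sg.Term α) : Df sg (Sm κ μ) α fun v => PO (t.realize v) := by
  have h := (Df.eq (M := Sm κ μ) (tm (t.relabel Sum.inl) (Term.var (Sum.inr ()) : sg.Term (α ⊕ Unit)))
    (Term.var (Sum.inr ()))).all
  refine h.imp fun ψ hψ v => ?_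
  rw [hψ]
  simp only [realize_tm, Term.realize_relabel, Term.realize_var, Sum.elim_inr, PO]
  rfl

theorem df_T {α : Type} (t : sg.Term α) : Df sg (Sm κ μ) α fun v => PT (t.realize v) := by
  have z : sg.Term (α ⊕ Unit) := Term.var (Sum.inr ())
  have h := ((Df.eq (M := Sm κ μ) (tm (Term.var (Sum.inr ()) : sg.Term (α ⊕ Unit)) (t.relabel Sum.inl))
    (Term.var (Sum.inr ()))).or ((df_Z (tm (Term.var (Sum.inr ())) (t.relabel Sum.inl))).or
      (df_O (Term.var (Sum.inr ()))))).all
  refine h.imp fun ψ hψ v => ?_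
  rw [hψ]
  simp only [realize_tm, Term.realize_relabel, Term.realize_var, Sum.elim_inr, PT]
  rfl

theorem df_V {α : Type} (t : sg.Term α) : Df sg (Sm κ μ) α fun v => PV (t.realize v) := by
  have h := ((Df.eq (M := Sm κ μ) (tm (t.relabel Sum.inl) (Term.var (Sum.inr ()) : sg.Term (α ⊕ Unit)))
    (t.relabel Sum.inl)).or (df_Z (tm (t.relabel Sum.inl) (Term.var (Sum.inr ()))))).all
  refine h.imp fun ψ hψ v => ?_
  rw [hψ]
  simp only [realize_tm, Term.realize_relabel, Term.realize_var, Sum.elim_inr, PV]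
  rfl

theorem df_B {α : Type} (t : sg.Term α) : Df sg (Sm κ μ) α fun v => PB (t.realize v) := by
  have h := ((df_T (κ := κ) (μ := μ) (Term.var (Sum.inr ()) : sg.Term (α ⊕ Unit))).and
    ((df_O (Term.var (Sum.inr ()))).not.and ((df_Z (t.relabel Sum.inl)).not.and
      (Df.eq (tm (t.relabel Sum.inl) (Term.var (Sum.inr ()) : sg.Term (α ⊕ Unit))) (t.relabel Sum.inl))))).ex
  refine h.imp fun ψ hψ v => ?_
  rw [hψ]
  simp only [realize_tm, Term.realize_relabel, Term.realize_var, Sum.elim_inr, PB]
  rfl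

variable [Nonempty κ] [Nonempty μ]

theorem PZ_iff (s : Sm κ μ) : PZ s ↔ s = zero := by
  obtain ⟨x⟩ := ‹Nonempty κ›
  obtain ⟨y⟩ := ‹Nonempty μ›
  constructor
  · intro h
    cases s with
    | one => have := h zero; simp at this
    | zero => rfl
    | l e x => have := h (r 0 y); simp at this
    | r v y => have := h (l 0 x); simp at this
  · rintro rfl w
    simp

theorem PO_iff (s : Sm κ μ) : PO s ↔ s = one := by
  constructor
  · intro h
    have := h one
    simpa using this
  · rintro rfl w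
    simp

theorem PT_iff (s : Sm κ μ) : PT s ↔ s = one ∨ s = zero ∨ ∃ x, s = l 2 x := by
  constructor
  · intro h
    cases s with
    | one => left; rfl
    | zero => right; left; rfl
    | l e x =>
      have := h (l 2 x)
      rw [PZ_iff, PO_iff] at this
      simp only [ll, Sm.l.injEq, and_true, reduceCtorEq, or_false] at this
      right; right
      refine ⟨x, ?_⟩
      congr 1
      clear h
      revert this
      revert e
      decide
    | r v y =>
      exfalso
      have h1 := h (r 1 y)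
      have h2 := h (r 2 y)
      rw [PZ_iff, PO_iff] at h1 h2
      simp only [rr, Sm.r.injEq, and_true, reduceCtorEq, or_false] at h1 h2
      clear h
      revert h1 h2
      revert v
      decide
  · rintro (rfl | rfl | ⟨x, rfl⟩) z
    · left; simp
    · right; left; rw [PZ_iff]; simp
    · rw [PZ_iff, PO_iff]
      cases z with
      | one => right; right; rfl
      | zero => left; simp
      | l e x =>
        left
        simp only [ll, Sm.l.injEq, and_true]
        revert e; decide
      | r v y => right; left; simp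

theorem PB_iff (s : Sm κ μ) : PB s ↔ ∃ e x, s = l e x := by
  constructor
  · rintro ⟨t, h1, h2, h3, h4⟩
    rw [PT_iff] at h1
    rw [PO_iff] at h2
    rw [PZ_iff] at h3
    rcases h1 with rfl | rfl | ⟨x, rfl⟩
    · exact absurd rfl h2
    · exact absurd (by simpa using h4.symm) h3
    · cases s with
      | one => simp at h4
      | zero => exact absurd rfl h3
      | l e x => exact ⟨e, x, rfl⟩
      | r v y => simp at h4
  · rintro ⟨e, x, rfl⟩
    refine ⟨l 2 x, ?_, ?_, ?_, ?_⟩
    · rw [PT_iff]; right; right; exact ⟨x, rfl⟩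
    · rw [PO_iff]; simp
    · rw [PZ_iff]; simp
    · simp only [ll, Sm.l.injEq, and_true]
      revert e; decide

theorem PV_iff (s : Sm κ μ) : PV s ↔ s = zero ∨ (∃ x, s = l 0 x) ∨ ∃ y, s = r 0 y := by
  obtain ⟨x0⟩ := ‹Nonempty κ›
  obtain ⟨y0⟩ := ‹Nonempty μ›
  have : Nonempty κ := ⟨x0⟩
  have : Nonempty μ := ⟨y0⟩
  constructor
  · intro h
    cases s with
    | one =>
      have := h (l 0 x0)
      rw [PZ_iff] at this
      simp at this
    | zero => left; rfl
    | l e x =>
      have := h (l 0 x0)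
      rw [PZ_iff] at this
      simp only [ll, Sm.l.injEq, and_true, reduceCtorEq, or_false] at this
      right; left
      refine ⟨x, ?_⟩
      congr 1
      clear h
      revert this
      revert e
      decide
    | r v y =>
      have := h (r 0 y0)
      rw [PZ_iff] at this
      simp only [rr, Sm.r.injEq, and_true, reduceCtorEq, or_false] at this
      right; right
      refine ⟨y, ?_⟩
      congr 1
      clear h
      revert this
      revert v
      decide
  · rintro (rfl | ⟨x, rfl⟩ | ⟨y, rfl⟩) z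
    · left; simp
    · rw [PZ_iff]
      cases z with
      | one => left; simp
      | zero => right; simp
      | l e x' =>
        left
        simp only [ll, Sm.l.injEq, and_true]
        revert e; decide
      | r v y => right; simp
    · rw [PZ_iff]
      cases z with
      | one => left; simp
      | zero => right; simp
      | l e x' => right; simp
      | r v y =>
        left
        simp only [rr, Sm.r.injEq, and_true]
        revert v; decide

/-- coordinates -/
def cl (d : κ) : Sm κ μ → κ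
  | l _ x => x
  | _ => d
def cr (d : μ) : Sm κ μ → μ
  | r _ y => y
  | _ => d
def cv : Sm κ μ → Fin 3
  | r v _ => v
  | _ => 0

theorem tau_exists {ι : Type} (s : Finset ι) (v w : ι → Fin 3) (h0 : ∀ i ∈ s, v i = 0 ↔ w i = 0)
    (h : ∀ i ∈ s, ∀ j ∈ s, vm (v i) (v j) = v i ↔ vm (w i) (w j) = w i) :
    ∃ τ : Equiv.Perm (Fin 3), (∀ a b, τ (vm a b) = vm (τ a) (τ b)) ∧ ∀ i ∈ s, τ (v i) = w i := by
  by_cases hex : ∃ i ∈ s, v i ≠ w i
  · obtain ⟨i, hi, hne⟩ := hex
    refine ⟨Equiv.swap 1 2, by decide, fun j hj => ?_⟩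
    have h1 := h0 i hi
    have h2 := h0 j hj
    have h3 := h i hi j hj
    have h4 := h j hj i hi
    generalize v i = vi at *
    generalize v j = vj at *
    generalize w i = wi at *
    generalize w j = wj at *
    clear h0 h hi hj
    revert vi vj wi wj
    decide
  · push Not at hex
    exact ⟨Equiv.refl _, fun _ _ => rfl, fun i hi => hex i hi⟩

/-- **The semigroup is logically homogeneous.** -/
theorem logHom_Sm : LogHom sg (Sm κ μ) := by
  classical
  intro n a b hab
  have hdf : ∀ p : (Fin n → Sm κ μ) → Prop, Df sg (Sm κ μ) (Fin n) p → (p a ↔ p b) := by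
    rintro p ⟨ψ, hψ⟩
    rw [← hψ, ← hψ]
    exact hab ψ
  obtain ⟨x0⟩ := ‹Nonempty κ›
  obtain ⟨y0⟩ := ‹Nonempty μ›
  have : Nonempty κ := ⟨x0⟩
  have : Nonempty μ := ⟨y0⟩
  have hz : ∀ i, a i = zero ↔ b i = zero := by
    intro i
    have := hdf _ (df_Z (Term.var i))
    simpa only [Term.realize_var, PZ_iff] using this
  have ho : ∀ i, a i = one ↔ b i = one := by
    intro i
    have := hdf _ (df_O (Term.var i))
    simpa only [Term.realize_var, PO_iff] using this
  have hl : ∀ i, (∃ e x, a i = l e x) ↔ ∃ e x, b i = l e x := by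
    intro i
    have := hdf _ (df_B (Term.var i))
    simpa only [Term.realize_var, PB_iff] using this
  have ht : ∀ i, (a i = one ∨ a i = zero ∨ ∃ x, a i = l 2 x) ↔
      (b i = one ∨ b i = zero ∨ ∃ x, b i = l 2 x) := by
    intro i
    have := hdf _ (df_T (Term.var i))
    simpa only [Term.realize_var, PT_iff] using this
  have hv : ∀ i, (a i = zero ∨ (∃ x, a i = l 0 x) ∨ ∃ y, a i = r 0 y) ↔
      (b i = zero ∨ (∃ x, b i = l 0 x) ∨ ∃ y, b i = r 0 y) := by
    intro i
    have := hdf _ (df_V (Term.var i))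
    simpa only [Term.realize_var, PV_iff] using this
  have hc : ∀ i j, a i * a j = a j * a i ↔ b i * b j = b j * b i := by
    intro i j
    have := hdf _ (Df.eq (tm (Term.var i) (Term.var j)) (tm (Term.var j) (Term.var i)))
    simpa only [Term.realize_var, realize_tm] using this
  have hm : ∀ i j, a i * a j = a i ↔ b i * b j = b i := by
    intro i j
    have := hdf _ (Df.eq (tm (Term.var i) (Term.var j)) (Term.var i))
    simpa only [Term.realize_var, realize_tm] using this
  -- the two blocks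
  have hr : ∀ i, (∃ v y, a i = r v y) → ∃ v y, b i = r v y := by
    rintro i ⟨v, y, h⟩
    rcases hb : b i with _ | _ | ⟨e, x⟩ | ⟨w, z⟩
    · exact absurd ((ho i).2 hb) (by rw [h]; simp)
    · exact absurd ((hz i).2 hb) (by rw [h]; simp)
    · obtain ⟨e, x, h'⟩ := (hl i).2 ⟨e, x, hb⟩
      rw [h] at h'
      cases h'
    · exact ⟨w, z, rfl⟩
  obtain ⟨π, hπ⟩ := ext_perm (Finset.univ.filter fun i => ∃ e x, a i = l e x)
    (fun i => cl x0 (a i)) (fun i => cl x0 (b i)) (by
      intro i hi j hj
      rw [Finset.mem_filter] at hi hj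
      obtain ⟨e, x, h1⟩ := hi.2
      obtain ⟨f, x', h2⟩ := hj.2
      obtain ⟨e', y, h3⟩ := (hl i).1 ⟨e, x, h1⟩
      obtain ⟨f', y', h4⟩ := (hl j).1 ⟨f, x', h2⟩
      have h5 := hc i j
      rw [h1, h2, h3, h4] at h5 ⊢
      simp only [ll, Sm.l.injEq, min_comm f e, min_comm f' e', true_and] at h5
      exact h5)
  obtain ⟨ρ, hρ⟩ := ext_perm (Finset.univ.filter fun i => ∃ v y, a i = r v y)
    (fun i => cr y0 (a i)) (fun i => cr y0 (b i)) (by
      intro i hi j hj
      rw [Finset.mem_filter] at hi hj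
      obtain ⟨e, x, h1⟩ := hi.2
      obtain ⟨f, x', h2⟩ := hj.2
      obtain ⟨e', y, h3⟩ := hr i ⟨e, x, h1⟩
      obtain ⟨f', y', h4⟩ := hr j ⟨f, x', h2⟩
      have h5 := hc i j
      rw [h1, h2, h3, h4] at h5 ⊢
      have hvc : ∀ v w : Fin 3, vm v w = vm w v := by decide
      simp only [rr, Sm.r.injEq, hvc f e, hvc f' e', true_and] at h5
      exact h5)
  obtain ⟨τ, hτ, hτ'⟩ := tau_exists (Finset.univ.filter fun i => ∃ v y, a i = r v y)
    (fun i => cv (a i)) (fun i => cv (b i)) (by
      intro i hi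
      rw [Finset.mem_filter] at hi
      obtain ⟨e, x, h1⟩ := hi.2
      obtain ⟨e', y, h3⟩ := hr i ⟨e, x, h1⟩
      have h5 := hv i
      rw [h1, h3] at h5 ⊢
      simp only [reduceCtorEq, exists_false, false_or, Sm.r.injEq, exists_and_left, exists_eq', and_true] at h5
      exact h5) (by
      intro i hi j hj
      rw [Finset.mem_filter] at hi hj
      obtain ⟨e, x, h1⟩ := hi.2
      obtain ⟨f, x', h2⟩ := hj.2
      obtain ⟨e', y, h3⟩ := hr i ⟨e, x, h1⟩
      obtain ⟨f', y', h4⟩ := hr j ⟨f, x', h2⟩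
      have h5 := hm i j
      rw [h1, h2, h3, h4] at h5 ⊢
      simp only [rr, Sm.r.injEq, and_true] at h5
      exact h5)
  refine ⟨sgAut (autS π τ ρ hτ), fun i => ?_⟩
  change mapS π τ ρ (a i) = b i
  rcases ha : a i with _ | _ | ⟨e, x⟩ | ⟨v, y⟩
  · rw [(ho i).1 ha]; rfl
  · rw [(hz i).1 ha]; rfl
  · obtain ⟨e', x', hb⟩ := (hl i).1 ⟨e, x, ha⟩
    have h1 := hπ i (by rw [Finset.mem_filter]; exact ⟨Finset.mem_univ _, e, x, ha⟩)
    have h2 := ht i
    have h3 := hv i
    rw [ha, hb] at h1 h2 h3
    rw [hb]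
    simp only [reduceCtorEq, exists_false, false_or, or_false, Sm.l.injEq, exists_and_left, exists_eq',
      and_true] at h2 h3
    simp only [cl] at h1
    simp only [mapS, h1, Sm.l.injEq, and_true]
    clear h1 hπ hρ hτ' ha hb
    revert h2 h3
    revert e e'
    decide
  · obtain ⟨v', y', hb⟩ := hr i ⟨v, y, ha⟩
    have hi : i ∈ Finset.univ.filter fun i => ∃ v y, a i = r v y := by
      rw [Finset.mem_filter]; exact ⟨Finset.mem_univ _, v, y, ha⟩
    have h1 := hρ i hi
    have h2 := hτ' i hi
    rw [ha, hb] at h1 h2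
    rw [hb]
    simp only [cr] at h1
    simp only [cv] at h2
    simp only [mapS, h1, h2]

end

end Pool.Agent.Q318.SgAlg
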