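import Mathlib
import Pool.Agent.Q318.SgAlg.Sgp

/-!
# The semigroup algebra is not logically homogeneous
-/

set_option autoImplicit false

namespace Pool.Agent.Q318.SgAlg

open FirstOrder FirstOrder.Language Sm

/-- `P`-algebra automorphisms are automorphisms in the language of algebras -/
def alAut {P : Type} [CommSemiring P] {u : Bool} {A B : Type} [Ring A] [Algebra P A] [Ring B] [Algebra P B]
    (e : A ≃ₐ[P] B) : A ≃[al P u] B where
  toEquiv := e.toEquiv
  map_fun' {n} f v := by
    cases f
    · exact map_zero e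
    · exact map_one e
    · exact map_neg e _
    · exact map_smul e _ _
    · exact map_add e _ _
    · exact map_mul e _ _
  map_rel' {n} r v := by cases r

/-- injective `P`-algebra homomorphisms are embeddings -/
def alEmb {P : Type} [CommSemiring P] {u : Bool} {A B : Type} [Ring A] [Algebra P A] [Ring B] [Algebra P B]
    (e : A →ₐ[P] B) (he : Function.Injective e) : A ↪[al P u] B where
  toFun := e
  inj' := he
  map_fun' {n} f v := by
    cases f
    · exact map_zero e
    · exact map_one e
    · exact map_neg e _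
    · exact map_smul e _ _
    · exact map_add e _ _
    · exact map_mul e _ _
  map_rel' {n} r v := by cases r

/-- the coefficients -/
abbrev K2 : Type := ZMod 2

/-- the algebra -/
abbrev MA (κ μ : Type) : Type := MonoidAlgebra K2 (Sm κ μ)

section
variable {κ μ : Type}

/-- basis elements -/
noncomputable def bs (s : Sm κ μ) : MA κ μ := MonoidAlgebra.single s 1

theorem bs_mul (s t : Sm κ μ) : bs s * bs t = bs (s * t) := by
  simp [bs, MonoidAlgebra.single_mul_single]

theorem bs_one : bs (one : Sm κ μ) = 1 := rfl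

/-- the values of the exchange of the blocks on the semigroup -/
noncomputable def th : Sm κ κ → MA κ κ
  | one => bs one
  | zero => bs zero
  | l e x => if e = 0 then bs (r 0 x) else if e = 1 then bs (r 1 x) else
      bs (r 1 x) + bs (r 2 x) - bs (r 0 x)
  | r v x => if v = 0 then bs (l 0 x) else if v = 1 then bs (l 1 x) else
      bs (l 0 x) + bs (l 2 x) - bs (l 1 x)

theorem th_mul (s t : Sm κ κ) : th (s * t) = th s * th t := by
  cases s with
  | one => simp only [one_mul']; rw [show th (one : Sm κ κ) = bs one from rfl, bs_one, one_mul]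
  | zero =>
    cases t with
    | one => simp only [th, mul_one', bs_mul]
    | zero => simp only [th, mul_zero', bs_mul]
    | l e x =>
      fin_cases e <;> simp [th, bs_mul, mul_add, mul_sub]
    | r e x =>
      fin_cases e <;> simp [th, bs_mul, mul_add, mul_sub]
  | l e x =>
    cases t with
    | one => simp only [mul_one']; rw [show th (one : Sm κ κ) = bs one from rfl, bs_one, mul_one]
    | zero =>
      fin_cases e <;> simp [th, bs_mul, add_mul, sub_mul]
    | l f y =>
      fin_cases e <;> fin_cases f <;> simp [th, bs_mul, add_mul, sub_mul, mul_add, mul_sub, vm]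
    | r f y =>
      fin_cases e <;> fin_cases f <;> simp [th, bs_mul, add_mul, sub_mul, mul_add, mul_sub, vm]
  | r e x =>
    cases t with
    | one => simp only [mul_one']; rw [show th (one : Sm κ κ) = bs one from rfl, bs_one, mul_one]
    | zero =>
      fin_cases e <;> simp [th, bs_mul, add_mul, sub_mul]
    | l f y =>
      fin_cases e <;> fin_cases f <;> simp [th, bs_mul, add_mul, sub_mul, mul_add, mul_sub, vm]
    | r f y =>
      fin_cases e <;> fin_cases f <;> simp [th, bs_mul, add_mul, sub_mul, mul_add, mul_sub, vm]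

/-- the exchange of the blocks on the semigroup, as a monoid homomorphism -/
noncomputable def thH : Sm κ κ →* MA κ κ where
  toFun := th
  map_one' := rfl
  map_mul' := th_mul

/-- the exchange of the blocks -/
noncomputable def Th : MA κ κ →ₐ[K2] MA κ κ := MonoidAlgebra.lift K2 (MA κ κ) (Sm κ κ) thH

theorem Th_bs (s : Sm κ κ) : Th (bs s) = th s := by
  unfold Th bs
  rw [MonoidAlgebra.lift_single, one_smul]
  rfl

theorem Th_th (s : Sm κ κ) : Th (th s) = bs s := by
  cases s with
  | one => exact Th_bs _
  | zero => exact Th_bs _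
  | l e x => fin_cases e <;> simp [th, Th_bs]
  | r e x => fin_cases e <;> simp [th, Th_bs]

theorem Th_Th (z : MA κ κ) : Th (Th z) = z := by
  have : (Th.comp Th : MA κ κ →ₐ[K2] MA κ κ) = AlgHom.id K2 _ := by
    apply MonoidAlgebra.algHom_ext
    · intro s
      change Th (Th (bs s)) = bs s
      rw [Th_bs, Th_th]
    · exact Subsingleton.elim _ _
  exact congrArg (fun f => f z) this

/-- the exchange of the blocks, as an automorphism -/
noncomputable def ThE : MA κ κ ≃ₐ[K2] MA κ κ := AlgEquiv.ofAlgHom Th Th (AlgHom.ext Th_Th) (AlgHom.ext Th_Th)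

theorem move (R : Set μ) (hR : R.Infinite) (F0 : Finset μ) (hF0 : ∀ y ∈ F0, y ∈ R) (F : Finset μ) :
    ∃ σ : Equiv.Perm μ, (∀ y ∈ F0, σ y = y) ∧ ∀ y ∈ F, σ y ∈ R := by
  classical
  induction F using Finset.induction_on with
  | empty => exact ⟨Equiv.refl _, by simp, by simp⟩
  | insert a F ha ih =>
    obtain ⟨σ, h1, h2⟩ := ih
    by_cases haR : σ a ∈ R
    · refine ⟨σ, h1, fun y hy => ?_⟩
      rcases Finset.mem_insert.1 hy with rfl | hy
      · exact haR
      · exact h2 y hy
    · obtain ⟨z, hz, hz'⟩ := hR.exists_notMem_finset (F0 ∪ F.image σ)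
      rw [Finset.mem_union, not_or] at hz'
      refine ⟨σ.trans (Equiv.swap (σ a) z), fun y hy => ?_, fun y hy => ?_⟩
      · rw [Equiv.trans_apply, h1 y hy]
        refine Equiv.swap_apply_of_ne_of_ne (fun h => haR ?_) fun h => hz'.1 (h ▸ hy)
        rw [← h]; exact hF0 y hy
      · rw [Equiv.trans_apply]
        rcases Finset.mem_insert.1 hy with rfl | hy
        · rw [Equiv.swap_apply_left]; exact hz
        · rw [Equiv.swap_apply_of_ne_of_ne]
          · exact h2 y hy
          · intro h
            exact haR (h ▸ h2 y hy)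
          · intro h
            exact hz'.2 (Finset.mem_image.2 ⟨y, hy, h⟩)

/-- the embedding of algebras given by an injection of the second index sets -/
noncomputable def emb {μ' : Type} (ι : μ' → μ) : MA κ μ' →ₐ[K2] MA κ μ :=
  MonoidAlgebra.mapDomainAlgHom K2 K2 (homS id ι)

theorem emb_apply {μ' : Type} (ι : μ' → μ) (z : MA κ μ') :
    emb ι z = MonoidAlgebra.mapDomain (homS id ι) z := rfl

theorem emb_injective {μ' : Type} {ι : μ' → μ} (hι : Function.Injective ι) :
    Function.Injective (emb ι : MA κ μ' → MA κ μ) :=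
  MonoidAlgebra.mapDomain_injective (homS_injective Function.injective_id hι)

theorem mem_range_emb {μ' : Type} {ι : μ' → μ} (hι : Function.Injective ι) (z : MA κ μ)
    (hz : ∀ v y, z.coeff (r v y) ≠ 0 → y ∈ Set.range ι) : ∃ w, emb ι w = z := by
  have hi := homS_injective (κ := κ) Function.injective_id hι
  refine ⟨MonoidAlgebra.comapDomain _ hi z, ?_⟩
  rw [emb_apply]
  apply MonoidAlgebra.mapDomain_comapDomain
  intro s hs
  rw [Finset.mem_coe, Finsupp.mem_support_iff] at hs
  cases s with
  | one => exact ⟨one, rfl⟩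
  | zero => exact ⟨zero, rfl⟩
  | l e x => exact ⟨l e x, rfl⟩
  | r v y =>
    obtain ⟨y', rfl⟩ := hz v y hs
    exact ⟨r v y', rfl⟩

theorem move_alg {μ' : Type} [Infinite μ'] {ι : μ' → μ} (hι : Function.Injective ι) {n : ℕ}
    (x : Fin n → MA κ μ') (a : MA κ μ) : ∃ e : MA κ μ ≃ₐ[K2] MA κ μ, (∀ i, e (emb ι (x i)) = emb ι (x i)) ∧
      ∃ b, e a = emb ι b := by
  classical
  let co : Sm κ μ → Finset μ := fun s => match s with
    | r _ y => {y}
    | _ => ∅
  let co' : Sm κ μ' → Finset μ := fun s => match s with
    | r _ y => {ι y}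
    | _ => ∅
  obtain ⟨σ, h1, h2⟩ := move (Set.range ι) (Set.infinite_range_of_injective hι)
    (Finset.univ.biUnion fun i => (x i).coeff.support.biUnion co') (by
      intro y hy
      rw [Finset.mem_biUnion] at hy
      obtain ⟨i, _, hy⟩ := hy
      rw [Finset.mem_biUnion] at hy
      obtain ⟨s, _, hy⟩ := hy
      cases s with
      | r v z =>
        simp only [co', Finset.mem_singleton] at hy
        exact ⟨z, hy.symm⟩
      | _ => simp [co'] at hy) (a.coeff.support.biUnion co)
  have hid : ∀ v w : Fin 3, (Equiv.refl (Fin 3)) (vm v w) = vm (Equiv.refl _ v) (Equiv.refl _ w) := fun _ _ => rfl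
  refine ⟨MonoidAlgebra.domCongr K2 K2 (autS (Equiv.refl κ) (Equiv.refl _) σ hid), fun i => ?_, ?_⟩
  · rw [emb_apply]
    ext s
    have h3 : (MonoidAlgebra.domCongr K2 K2 (autS (Equiv.refl κ) (Equiv.refl _) σ hid))
        (MonoidAlgebra.mapDomain (homS id ι) (x i)) =
        MonoidAlgebra.mapDomain (mapS (Equiv.refl κ) (Equiv.refl _) σ ∘ homS id ι) (x i) := by
      apply MonoidAlgebra.coeff_injective
      change Finsupp.mapDomain _ (Finsupp.mapDomain _ _) = Finsupp.mapDomain _ _
      rw [← Finsupp.mapDomain_comp]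
      rfl
    rw [h3]
    have h4 : MonoidAlgebra.mapDomain (mapS (Equiv.refl κ) (Equiv.refl _) σ ∘ homS id ι) (x i) =
        MonoidAlgebra.mapDomain (homS id ι) (x i) := by
      apply MonoidAlgebra.coeff_injective
      change Finsupp.mapDomain _ _ = Finsupp.mapDomain _ _
      apply Finsupp.mapDomain_congr
      intro s hs
      cases s with
      | r v y =>
        have := h1 (ι y) (by
          rw [Finset.mem_biUnion]
          refine ⟨i, Finset.mem_univ _, ?_⟩
          rw [Finset.mem_biUnion]
          exact ⟨r v y, hs, by simp [co']⟩)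
        change r v (σ (ι y)) = r v (ι y)
        rw [this]
      | _ => rfl
    rw [h4]
  · obtain ⟨b, hb⟩ := mem_range_emb hι
      ((MonoidAlgebra.domCongr K2 K2 (autS (Equiv.refl κ) (Equiv.refl _) σ hid)) a) (by
        intro v y hy
        rw [MonoidAlgebra.coeff_domCongr] at hy
        have h3 : (autS (Equiv.refl κ) (Equiv.refl _) σ hid).symm (r v y) = r v (σ.symm y) := rfl
        rw [h3] at hy
        have := h2 (σ.symm y) (by
          rw [Finset.mem_biUnion]
          exact ⟨r v (σ.symm y), Finsupp.mem_support_iff.2 hy, by simp [co]⟩)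
        rwa [Equiv.apply_symm_apply] at this)
    exact ⟨b, hb.symm⟩

theorem emb_elementary {u : Bool} {μ' : Type} [Infinite μ'] {ι : μ' → μ} (hι : Function.Injective ι)
    {n : ℕ} (φ : (al K2 u).Formula (Fin n)) (x : Fin n → MA κ μ') :
    φ.Realize (fun i => emb ι (x i)) ↔ φ.Realize x := by
  refine Embedding.isElementary_of_exists (alEmb (u := u) (emb ι : MA κ μ' →ₐ[K2] MA κ μ) (emb_injective hι)) (by
    intro n φ x a hφ
    obtain ⟨e, he, b, hb⟩ := move_alg hι x a
    refine ⟨b, ?_⟩
    have h1 := (StrongHomClass.realize_boundedFormula (alAut (u := u) e) φ (v := _)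
      (xs := (Fin.snoc (emb ι ∘ x) a : Fin (n + 1) → MA κ μ))).2 hφ
    have h2 : (alAut (u := u) e) ∘ (Fin.snoc (emb ι ∘ x) a : Fin (n + 1) → MA κ μ) =
        (Fin.snoc (emb ι ∘ x) (emb ι b) : Fin (n + 1) → MA κ μ) := by
      funext j
      refine Fin.lastCases ?_ (fun j => ?_) j
      · simp only [Function.comp_apply, Fin.snoc_last]
        exact hb
      · simp only [Function.comp_apply, Fin.snoc_castSucc]
        exact he j
    rw [h2] at h1
    have h4 : ∀ v w : Empty → MA κ μ, φ.Realize v (Fin.snoc (emb ι ∘ x) (emb ι b) : Fin (n + 1) → MA κ μ) →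
        φ.Realize w (Fin.snoc (emb ι ∘ x) (emb ι b) : Fin (n + 1) → MA κ μ) := fun v w h => by
      rwa [Subsingleton.elim w v]
    exact h4 _ _ h1) φ x

instance : Countable (Sm ℕ Empty) := by
  let f : Sm ℕ Empty → Option (Option (Fin 3 × ℕ)) := fun s => match s with
    | one => none
    | zero => some none
    | l e x => some (some (e, x))
    | r _ y => y.elim
  have hf : Function.Injective f := by
    intro s t h
    rcases s with _ | _ | ⟨e, x⟩ | ⟨v, y⟩
    · rcases t with _ | _ | ⟨e, x⟩ | ⟨v, y⟩
      · rfl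
      · simp [f] at h
      · simp [f] at h
      · exact y.elim
    · rcases t with _ | _ | ⟨e, x⟩ | ⟨v, y⟩
      · simp [f] at h
      · rfl
      · simp [f] at h
      · exact y.elim
    · rcases t with _ | _ | ⟨e', x'⟩ | ⟨v, y⟩
      · simp [f] at h
      · simp [f] at h
      · simp [f] at h
        rw [h.1, h.2]
      · exact y.elim
    · exact y.elim
  exact hf.countable

instance : Countable (MA ℕ Empty) :=
  (MonoidAlgebra.coeffEquiv (R := K2) (M := Sm ℕ Empty)).injective.countable

/-- **The algebra is not logically homogeneous.** -/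
theorem not_logHom (u : Bool) (μ : Type) [Uncountable μ] (ι : ℕ → μ) (hι : Function.Injective ι) :
    ¬ LogHom (al K2 u) (MA ℕ μ) := by
  intro hh
  set a0 : MA ℕ ℕ := bs (l 2 0) with ha0
  obtain ⟨σ, hσ⟩ := hh 1 (fun _ => emb ι a0) (fun _ => emb ι (Th a0)) (by
    intro φ
    rw [emb_elementary hι φ (fun _ => a0), emb_elementary hι φ (fun _ => Th a0)]
    exact (StrongHomClass.realize_formula (alAut (u := u) (ThE (κ := ℕ))) φ (v := fun _ => a0)).symm)
  have hσ0 := hσ 0
  have hmul : ∀ z w, σ (z * w) = σ z * σ w := fun z w => σ.map_fun' (AlF.mul : (al K2 u).Functions 2) ![z, w]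
  have ha : emb ι a0 = bs (l 2 0) := by
    rw [ha0, emb_apply]
    unfold bs
    rw [MonoidAlgebra.mapDomain_single]
    rfl
  have hembr : ∀ v y, emb ι (bs (r v y) : MA ℕ ℕ) = bs (r v (ι y)) := by
    intro v y
    rw [emb_apply]
    unfold bs
    rw [MonoidAlgebra.mapDomain_single]
    rfl
  have hb : emb ι (Th a0) = bs (r 1 (ι 0)) + bs (r 2 (ι 0)) - bs (r 0 (ι 0)) := by
    rw [ha0, Th_bs]
    have : th (l 2 0 : Sm ℕ ℕ) = bs (r 1 0) + bs (r 2 0) - bs (r 0 0) := by simp [th]
    rw [this, map_sub, map_add, hembr, hembr, hembr]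
  -- the set of the `z` with `z a = z` is countable
  have hZ : ∀ z : MA ℕ μ, z * emb ι a0 = z → z ∈ Set.range (emb (κ := ℕ) (Empty.elim : Empty → μ)) := by
    intro z hz
    obtain ⟨w, hw⟩ := mem_range_emb (κ := ℕ) (ι := (Empty.elim : Empty → μ)) (fun x => x.elim) z (by
      intro v y hvy
      exfalso
      apply hvy
      rw [← hz, ha]
      unfold bs
      apply MonoidAlgebra.coeff_mul_single_of_forall_mul_ne
      intro d
      cases d <;> simp)
    exact ⟨w, hw⟩
  have hcount : (Set.range (emb (κ := ℕ) (Empty.elim : Empty → μ))).Countable := Set.countable_range _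
  let F : μ → Set.range (emb (κ := ℕ) (Empty.elim : Empty → μ)) := fun y =>
    ⟨σ.symm (bs (r 0 y)), hZ _ (by
      apply σ.injective
      rw [hmul, hσ0]
      rw [FirstOrder.Language.Equiv.apply_symm_apply, hb]
      simp [mul_add, mul_sub, bs_mul, vm])⟩
  have hF : Function.Injective F := by
    intro y y' h
    have h1 : σ.symm (bs (r 0 y)) = σ.symm (bs (r 0 y')) := congrArg Subtype.val h
    have h2 := σ.symm.injective h1
    unfold bs at h2
    rw [MonoidAlgebra.single_left_inj one_ne_zero] at h2
    simpa using h2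
  have := hcount.to_subtype
  have hc : Countable μ := hF.countable
  exact not_countable hc

end

end Pool.Agent.Q318.SgAlg
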